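import Pool.Agent.helper163_WO.Main

/-!
# Strictly decreasing sequences of Turan densities of single `k`-graphs

For every large `k` there are `k`-graphs `L 0, L 1, ...` whose Turan densities decrease strictly to
`(1 - 1/k)^(k-1)`.
-/

set_option autoImplicit false

namespace Pool.Agent.Results.MP_d2ae2d_co.DecreasingToAlpha

open Filter

theorem result : ∃ k₀ : ℕ, ∀ k : ℕ, k₀ ≤ k →
    ∃ (m : ℕ → ℕ) (L : (i : ℕ) → Finset (Finset (Fin (m i)))) (d : ℕ → ℝ),
      (∀ i, ∀ e ∈ L i, e.card = k) ∧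
      (∀ i, Tendsto (fun n : ℕ =>
        ((sSup {t : ℕ | ∃ H : Finset (Finset (Fin n)), (∀ A ∈ H, A.card = k) ∧ H.card = t ∧
            ¬ ∃ f : Fin (m i) ↪ Fin n, ∀ e ∈ L i, e.map f ∈ H} : ℕ) : ℝ) /
          ((n.choose k : ℕ) : ℝ)) atTop (nhds (d i))) ∧
      StrictAnti d ∧ Tendsto d atTop (nhds ((1 - 1 / (k : ℝ)) ^ (k - 1))) := by
  obtain ⟨k₀, _, hmain⟩ := Pool.Agent.helper163_WO.main
  refine ⟨k₀, fun k hk => ?_⟩
  have hε := hmain k hk
  choose M Λ D h1 h2 h3 h4 using hε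
  set α : ℝ := Pool.Agent.helper163_WO.al k with hα
  let e : ℕ → {ε : ℝ // 0 < ε} := fun i => Nat.rec ⟨1, one_pos⟩
    (fun j x => ⟨min ((D x.1 x.2 - α) / 2) (1 / ((j : ℝ) + 1)),
      lt_min (by linarith [h3 x.1 x.2]) (by positivity)⟩) i
  have he : ∀ i, (e (i + 1)).1 = min ((D (e i).1 (e i).2 - α) / 2) (1 / ((i : ℝ) + 1)) :=
    fun i => rfl
  refine ⟨fun i => M (e i).1 (e i).2, fun i => Λ (e i).1 (e i).2, fun i => D (e i).1 (e i).2,
    fun i => h1 (e i).1 (e i).2, fun i => h2 (e i).1 (e i).2, ?_, ?_⟩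
  · refine strictAnti_nat_of_succ_lt fun i => ?_
    have h5 := h4 (e (i + 1)).1 (e (i + 1)).2
    have h6 : (e (i + 1)).1 ≤ (D (e i).1 (e i).2 - α) / 2 := by
      rw [he i]; exact min_le_left _ _
    have h7 := h3 (e i).1 (e i).2
    linarith
  · rw [← tendsto_add_atTop_iff_nat 1]
    have hlim : Tendsto (fun i : ℕ => α + 1 / ((i : ℝ) + 1)) atTop (nhds (α + 0)) :=
      tendsto_const_nhds.add tendsto_one_div_add_atTop_nhds_zero_nat
    rw [add_zero] at hlim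
    refine tendsto_of_tendsto_of_tendsto_of_le_of_le tendsto_const_nhds hlim ?_ ?_
    · intro i
      exact (h3 (e (i + 1)).1 (e (i + 1)).2).le
    · intro i
      have h5 := h4 (e (i + 1)).1 (e (i + 1)).2
      have h6 : (e (i + 1)).1 ≤ 1 / ((i : ℝ) + 1) := by
        rw [he i]; exact min_le_right _ _
      show D (e (i + 1)).1 (e (i + 1)).2 ≤ α + 1 / ((i : ℝ) + 1)
      linarith

end Pool.Agent.Results.MP_d2ae2d_co.DecreasingToAlpha
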